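import Mathlib
import Pool.Agent.T2H62.MG.G

set_option autoImplicit false

/-! # All moments of the gaps between sieved random primes

Random primes: every integer `n` without a prime factor `p ≤ A log n` is chosen with probability
`∏_{p ≤ A log n} (1 - 1/p)⁻¹ / log n` (at most `1`), the other integers are not chosen, and the choices are independent
(`A = 1`: Granville's modification of Cramer's model). Almost surely, for every `k ≥ 1` the sum of the `k`-th powers of the
gaps `r' - r` after the random primes `r` in `(N, 2 N]` is asymptotic to `k! N (log N) ^ (k - 1)`. -/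

namespace Pool.Agent.Results.MP_7ba156_nt.GapMoments

open Finset Filter Topology MeasureTheory ProbabilityTheory

open scoped Classical in
/-- the probability that `n` is a random prime -/
noncomputable def prob (A : ℝ) (n : ℕ) : ℝ :=
  if ∀ p : ℕ, p.Prime → (p : ℝ) ≤ A * Real.log n → ¬ p ∣ n then
    min 1 ((∏ p ∈ (Icc 1 ⌊A * Real.log n⌋₊).filter Nat.Prime, (1 - (p : ℝ)⁻¹)⁻¹) / Real.log n) else 0

/-- the events `S n` (`n` is a random prime) are independent with the probabilities `prob A n` -/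
def Model (A : ℝ) {Ω : Type*} [MeasurableSpace Ω] (μ : Measure Ω) (S : ℕ → Set Ω) : Prop :=
  IsProbabilityMeasure μ ∧ (∀ n, MeasurableSet (S n)) ∧ iIndepSet S μ ∧
    ∀ n, μ (S n) = ENNReal.ofReal (prob A n)

/-- the distance of `r` to the next larger element of `R` -/
noncomputable def gap (R : Set ℕ) (r : ℕ) : ℕ := sInf {g : ℕ | 0 < g ∧ r + g ∈ R}

open scoped Classical in
/-- the sum of the `k`-th powers of the gaps after the elements of `R` in `(N, 2 N]` -/
noncomputable def powerSum (R : Set ℕ) (k N : ℕ) : ℝ :=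
  ∑ r ∈ (Ioc N (2 * N)).filter (fun r => r ∈ R), (gap R r : ℝ) ^ k

theorem result (A : ℝ) (hA : 0 < A) :
    -- the model exists
    (∃ (μ : Measure (ℕ → Bool)) (S : ℕ → Set (ℕ → Bool)), Model A μ S) ∧
    ∀ (Ω : Type) [MeasurableSpace Ω] (μ : Measure Ω) (S : ℕ → Set Ω), Model A μ S →
      ∀ᵐ ω ∂μ, {n | ω ∈ S n}.Infinite ∧ ∀ k : ℕ, 1 ≤ k →
        Tendsto (fun N : ℕ => powerSum {n | ω ∈ S n} k N / (N * Real.log N ^ (k - 1))) atTop (𝓝 (k.factorial : ℝ)) := by
  classical
  have hprob : ∀ n, prob A n = Pool.Agent.T2H53.GW.pr A n := fun n => rfl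
  refine ⟨?_, ?_⟩
  · obtain ⟨μ, S, h1, h2, h3, h4⟩ := Pool.Agent.T2H53.GW.exists_model (prob A)
      (fun n => by rw [hprob]; exact Pool.Agent.T2H53.GW.pr_nonneg A n)
      (fun n => by rw [hprob]; exact Pool.Agent.T2H53.GW.pr_le_one A n)
    exact ⟨μ, S, h1, h2, h3, h4⟩
  · rintro Ω _ μ S ⟨hμ, hm, hi, hp⟩
    have hp' : ∀ n, μ.real (S n) = Pool.Agent.T2H53.GW.pr A n := fun n => by
      rw [measureReal_def, hp n, ENNReal.toReal_ofReal (by rw [hprob]; exact Pool.Agent.T2H53.GW.pr_nonneg A n), hprob]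
    filter_upwards [Pool.Agent.T2H62.MG.moments_ae hA hm hi hp', Pool.Agent.T2H62.ME.gap_law hA hm hi hp'] with ω hω hω2
    have h1 := hω {n | ω ∈ S n} (fun n => Classical.propDecidable _) rfl
    obtain ⟨-, -, hgap⟩ := hω2 {n | ω ∈ S n} (fun n => Classical.propDecidable _) rfl
    obtain ⟨R, hR⟩ : ∃ R : Set ℕ, R = {n | ω ∈ S n} := ⟨_, rfl⟩
    rw [← hR] at h1 hgap ⊢
    refine ⟨?_, fun k hk => ?_⟩
    · rw [Set.infinite_iff_exists_gt]
      intro a
      obtain ⟨n₀, hn₀⟩ := eventually_atTop.1 hgap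
      obtain ⟨n, hn, hnR⟩ := hn₀ (a + n₀) (by omega)
      rw [mem_Ioc] at hn
      exact ⟨n, hnR, by omega⟩
    · refine (h1 k).congr' ?_
      filter_upwards [eventually_ge_atTop 3] with N hN
      have hN0 : (0 : ℝ) < N := by exact_mod_cast (by omega : 0 < N)
      have hl : 0 < Real.log (N : ℝ) := Real.log_pos (by exact_mod_cast (by omega : 1 < N))
      have h2 : (∑ r ∈ (Ioc N (2 * N)).filter (fun r => r ∈ R), ((Pool.Agent.T2H62.MG.gp R r : ℝ) / Real.log N) ^ k) =
          powerSum R k N / Real.log N ^ k := by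
        unfold powerSum
        rw [sum_div]
        refine sum_congr ?_ fun r _ => ?_
        · congr
        · rw [div_pow]
          rfl
      rw [h2]
      have h3 : Real.log (N : ℝ) ^ k = Real.log N ^ (k - 1) * Real.log N := by
        rw [← pow_succ]
        congr 1
        omega
      rw [h3]
      field_simp

end Pool.Agent.Results.MP_7ba156_nt.GapMoments
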