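import Mathlib
import Pool.Agent.T2H62.MM.J

set_option autoImplicit false

/-! # Maier's phenomenon for the sieved random primes, in every short interval

Random primes: every integer `n` without a prime factor `p ≤ A log n` is chosen with probability
`∏_{p ≤ A log n} (1 - 1/p)⁻¹ / log n` (at most `1`), the other integers are not chosen, and the choices are independent
(`A = 1`: Granville's modification of Cramer's model). Almost surely, for every `t > 1` there is `δ > 0` such that, for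
every `ε > 0` and all large `N`, there are `x` in `[N, N + N ^ ε]` for which `(x, x + (log x) ^ t]` contains at most
`(1 - δ) (log x) ^ (t - 1)` random primes, and others for which it contains at least `(1 + δ) (log x) ^ (t - 1)`. -/

namespace Pool.Agent.Results.MP_7ba156_nt.MaierPhenomenon

open Finset Filter MeasureTheory ProbabilityTheory

open scoped Classical in
/-- the probability that `n` is a random prime -/
noncomputable def prob (A : ℝ) (n : ℕ) : ℝ :=
  if ∀ p : ℕ, p.Prime → (p : ℝ) ≤ A * Real.log n → ¬ p ∣ n then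
    min 1 ((∏ p ∈ (Icc 1 ⌊A * Real.log n⌋₊).filter Nat.Prime, (1 - (p : ℝ)⁻¹)⁻¹) / Real.log n) else 0

/-- the events `S n` (`n` is a random prime) are independent with the probabilities `prob A n` -/
def Model (A : ℝ) {Ω : Type*} [MeasurableSpace Ω] (μ : Measure Ω) (S : ℕ → Set Ω) : Prop :=
  IsProbabilityMeasure μ ∧ (∀ n, MeasurableSet (S n)) ∧ iIndepSet S μ ∧
    ∀ n, μ (S n) = ENNReal.ofReal (prob A n)

open scoped Classical in
/-- the number of the random primes in `(x, x + y]` -/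
noncomputable def randomPrimesIn {Ω : Type*} (S : ℕ → Set Ω) (ω : Ω) (x y : ℕ) : ℕ :=
  ((Finset.Ioc x (x + y)).filter (fun n => ω ∈ S n)).card

theorem result (A : ℝ) (hA : 0 < A) :
    -- the model exists
    (∃ (μ : Measure (ℕ → Bool)) (S : ℕ → Set (ℕ → Bool)), Model A μ S) ∧
    ∀ (Ω : Type) [MeasurableSpace Ω] (μ : Measure Ω) (S : ℕ → Set Ω), Model A μ S →
      ∀ᵐ ω ∂μ, ∀ t : ℝ, 1 < t → ∃ δ : ℝ, 0 < δ ∧ ∀ ε : ℝ, 0 < ε → ∀ᶠ N : ℕ in atTop,
        -- too few random primes
        (∃ x : ℕ, N ≤ x ∧ (x : ℝ) ≤ N + (N : ℝ) ^ ε ∧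
          (randomPrimesIn S ω x ⌊Real.log x ^ t⌋₊ : ℝ) ≤ (1 - δ) * Real.log x ^ (t - 1)) ∧
        -- too many random primes
        ∃ x : ℕ, N ≤ x ∧ (x : ℝ) ≤ N + (N : ℝ) ^ ε ∧
          (1 + δ) * Real.log x ^ (t - 1) ≤ (randomPrimesIn S ω x ⌊Real.log x ^ t⌋₊ : ℝ) := by
  classical
  have hprob : ∀ n, prob A n = Pool.Agent.T2H53.GW.pr A n := fun n => rfl
  refine ⟨?_, ?_⟩
  · obtain ⟨μ, S, h1, h2, h3, h4⟩ := Pool.Agent.T2H53.GW.exists_model (prob A)
      (fun n => by rw [hprob]; exact Pool.Agent.T2H53.GW.pr_nonneg A n)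
      (fun n => by rw [hprob]; exact Pool.Agent.T2H53.GW.pr_le_one A n)
    exact ⟨μ, S, h1, h2, h3, h4⟩
  · rintro Ω _ μ S ⟨hμ, hm, hi, hp⟩
    have hpr : ∀ n, μ.real (S n) = Pool.Agent.T2H53.GW.pr A n := by
      intro n
      rw [Measure.real, hp n, hprob n]
      exact ENNReal.toReal_ofReal (Pool.Agent.T2H53.GW.pr_nonneg A n)
    filter_upwards [Pool.Agent.T2H62.MM.Sh.maier_ae hA hm hi hpr] with ω hω
    have hc : ∀ x y : ℕ, (randomPrimesIn S ω x y : ℝ) = Pool.Agent.T2H62.MD.cnt (Ioc x (x + y)) S ω := by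
      intro x y
      rw [Pool.Agent.T2H62.MM.cnt_card]
      unfold randomPrimesIn
      congr!
    simp only [hc]
    exact hω

end Pool.Agent.Results.MP_7ba156_nt.MaierPhenomenon
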