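import Mathlib
import Pool.Agent.T2H62.MM.G

set_option autoImplicit false

/-! # The numbers of sieved random primes in intervals of polylogarithmic length

Random primes: every integer `n` without a prime factor `p ≤ A log n` is chosen with probability
`∏_{p ≤ A log n} (1 - 1/p)⁻¹ / log n` (at most `1`), the other integers are not chosen, and the choices are independent
(`A = 1`: Granville's modification of Cramer's model). Almost surely, for every `t > 2`, all intervals `(x, x + y]` with
`(log x) ^ t ≤ y ≤ √x` contain between `c y / log x` and `C y / log x` random primes (`x` large), and for large `t` the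
constants can be taken arbitrarily close to `1`. -/

namespace Pool.Agent.Results.MP_7ba156_nt.PolylogIntervals

open Finset Filter MeasureTheory ProbabilityTheory

open scoped Classical in
/-- the probability that `n` is a random prime -/
noncomputable def prob (A : ℝ) (n : ℕ) : ℝ :=
  if ∀ p : ℕ, p.Prime → (p : ℝ) ≤ A * Real.log n → ¬ p ∣ n then
    min 1 ((∏ p ∈ (Icc 1 ⌊A * Real.log n⌋₊).filter Nat.Prime, (1 - (p : ℝ)⁻¹)⁻¹) / Real.log n) else 0

/-- the events `S n` (`n` is a random prime) are independent with the probabilities `prob A n` -/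
def Model (A : ℝ) {Ω : Type*} [MeasurableSpace Ω] (μ : Measure Ω) (S : ℕ → Set Ω) : Prop :=
  IsProbabilityMeasure μ ∧ (∀ n, MeasurableSet (S n)) ∧ iIndepSet S μ ∧
    ∀ n, μ (S n) = ENNReal.ofReal (prob A n)

open scoped Classical in
/-- the number of the random primes in `(x, x + y]` -/
noncomputable def randomPrimesIn {Ω : Type*} (S : ℕ → Set Ω) (ω : Ω) (x y : ℕ) : ℕ :=
  ((Finset.Ioc x (x + y)).filter (fun n => ω ∈ S n)).card

theorem result (A : ℝ) (hA : 0 < A) :
    -- the model exists
    (∃ (μ : Measure (ℕ → Bool)) (S : ℕ → Set (ℕ → Bool)), Model A μ S) ∧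
    ∀ (Ω : Type) [MeasurableSpace Ω] (μ : Measure Ω) (S : ℕ → Set Ω), Model A μ S →
      ∀ᵐ ω ∂μ,
        -- the right order of magnitude, for every exponent above `2`
        (∀ t : ℝ, 2 < t → ∃ c C : ℝ, 0 < c ∧ ∀ᶠ x : ℕ in atTop, ∀ y : ℕ, Real.log x ^ t ≤ y → y ^ 2 ≤ x →
          c * (y / Real.log x) ≤ randomPrimesIn S ω x y ∧ (randomPrimesIn S ω x y : ℝ) ≤ C * (y / Real.log x)) ∧
        -- nearly the asymptotic formula, for large exponents
        (∀ ε : ℝ, 0 < ε → ∃ t : ℝ, ∀ᶠ x : ℕ in atTop, ∀ y : ℕ, Real.log x ^ t ≤ y → y ^ 2 ≤ x →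
          |(randomPrimesIn S ω x y : ℝ) - y / Real.log x| ≤ ε * (y / Real.log x)) := by
  classical
  have hprob : ∀ n, prob A n = Pool.Agent.T2H53.GW.pr A n := fun n => rfl
  refine ⟨?_, ?_⟩
  · obtain ⟨μ, S, h1, h2, h3, h4⟩ := Pool.Agent.T2H53.GW.exists_model (prob A)
      (fun n => by rw [hprob]; exact Pool.Agent.T2H53.GW.pr_nonneg A n)
      (fun n => by rw [hprob]; exact Pool.Agent.T2H53.GW.pr_le_one A n)
    exact ⟨μ, S, h1, h2, h3, h4⟩
  · rintro Ω _ μ S ⟨hμ, hm, hi, hp⟩
    have hpr : ∀ n, μ.real (S n) = Pool.Agent.T2H53.GW.pr A n := by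
      intro n
      rw [Measure.real, hp n, hprob n]
      exact ENNReal.toReal_ofReal (Pool.Agent.T2H53.GW.pr_nonneg A n)
    filter_upwards [Pool.Agent.T2H62.MM.final_ae hA hm hi hpr] with ω hω
    have hc : ∀ x y : ℕ, (randomPrimesIn S ω x y : ℝ) = Pool.Agent.T2H62.MD.cnt (Ioc x (x + y)) S ω := by
      intro x y
      rw [Pool.Agent.T2H62.MM.cnt_card]
      unfold randomPrimesIn
      congr!
    simp only [hc]
    exact ⟨hω.1, hω.2.1⟩

end Pool.Agent.Results.MP_7ba156_nt.PolylogIntervals
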