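import Mathlib
import Pool.Agent.T2H62.MD.L2
import Pool.Agent.T2H62.MD.M

set_option autoImplicit false

/-! # The largest gaps between sieved random primes

Random primes: every integer `n` without a prime factor `p ≤ A log n` is chosen with probability
`∏_{p ≤ A log n} (1 - 1/p)⁻¹ / log n` (at most `1`), the other integers are not chosen, and the choices are independent
(`A = 1`: Granville's modification of Cramer's model). Almost surely, the question has a positive answer for the set `R`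
of the random primes: for every `t > 2`, the largest gap `G_R(x)` between an element `r ≤ x` of `R` and the next element
of `R` is at most `(log x) ^ t` for all large `x`. The exponent `2` is critical: for every `c < 2 exp (-γ)` (`γ` Euler's
constant), `G_R(x) ≥ c (log x) ^ 2` for all large `x`. -/

namespace Pool.Agent.Results.MP_7ba156_nt.SievedRandomGaps

open Finset Filter MeasureTheory ProbabilityTheory

open scoped Classical in
/-- the probability that `n` is a random prime -/
noncomputable def prob (A : ℝ) (n : ℕ) : ℝ :=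
  if ∀ p : ℕ, p.Prime → (p : ℝ) ≤ A * Real.log n → ¬ p ∣ n then
    min 1 ((∏ p ∈ (Icc 1 ⌊A * Real.log n⌋₊).filter Nat.Prime, (1 - (p : ℝ)⁻¹)⁻¹) / Real.log n) else 0

/-- the events `S n` (`n` is a random prime) are independent with the probabilities `prob A n` -/
def Model (A : ℝ) {Ω : Type*} [MeasurableSpace Ω] (μ : Measure Ω) (S : ℕ → Set Ω) : Prop :=
  IsProbabilityMeasure μ ∧ (∀ n, MeasurableSet (S n)) ∧ iIndepSet S μ ∧
    ∀ n, μ (S n) = ENNReal.ofReal (prob A n)

/-- the largest gap between an element `r ≤ x` of `R` and the next element of `R` -/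
noncomputable def maxGap (R : Set ℕ) (x : ℕ) : ℕ :=
  sSup {g : ℕ | ∃ r ∈ R, r ≤ x ∧ 0 < g ∧ r + g ∈ R ∧ ∀ n ∈ Ioo r (r + g), n ∉ R}

theorem result (A : ℝ) (hA : 0 < A) :
    -- the model exists
    (∃ (μ : Measure (ℕ → Bool)) (S : ℕ → Set (ℕ → Bool)), Model A μ S) ∧
    ∀ (Ω : Type) [MeasurableSpace Ω] (μ : Measure Ω) (S : ℕ → Set Ω), Model A μ S →
      ∀ᵐ ω ∂μ, {n | ω ∈ S n}.Infinite ∧
        (∀ t : ℝ, 2 < t → ∀ᶠ x : ℕ in atTop, (maxGap {n | ω ∈ S n} x : ℝ) ≤ Real.log x ^ t) ∧
        ∀ c : ℝ, c < 2 * Real.exp (-Real.eulerMascheroniConstant) → ∀ᶠ x : ℕ in atTop, c * Real.log x ^ 2 ≤ (maxGap {n | ω ∈ S n} x : ℝ) := by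
  classical
  have hprob : ∀ n, prob A n = Pool.Agent.T2H53.GW.pr A n := fun n => rfl
  refine ⟨?_, ?_⟩
  · obtain ⟨μ, S, h1, h2, h3, h4⟩ := Pool.Agent.T2H53.GW.exists_model (prob A)
      (fun n => by rw [hprob]; exact Pool.Agent.T2H53.GW.pr_nonneg A n)
      (fun n => by rw [hprob]; exact Pool.Agent.T2H53.GW.pr_le_one A n)
    exact ⟨μ, S, h1, h2, h3, h4⟩
  · rintro Ω _ μ S ⟨hμ, hm, hi, hp⟩
    have hp' : ∀ n, μ.real (S n) = Pool.Agent.T2H53.GW.pr A n := fun n => by
      rw [measureReal_def, hp n, ENNReal.toReal_ofReal (by rw [hprob]; exact Pool.Agent.T2H53.GW.pr_nonneg A n), hprob]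
    filter_upwards [Pool.Agent.T2H62.MD.gaps_upper A hA hm hi hp', Pool.Agent.T2H62.MD.gaps_lower2 A hA hm hi hp']
      with ω h1 h2
    exact Pool.Agent.T2H62.MD.maxgap (R := {n | ω ∈ S n}) h1 h2

end Pool.Agent.Results.MP_7ba156_nt.SievedRandomGaps
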